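import Mathlib
import Pool.Agent.V1199.Stopping

open Set Filter Topology

namespace Pool.Agent.Results.MP_66f42e_an.CountablePiBase

open Pool.Agent.V1199.Stopping

/-- `(X, ι)` is a realisation of the stopping time space: `X` is a real Banach space and `ι` maps
the finitely supported families on the binary tree linearly onto a dense subspace, with
`‖ι a‖ = sup_A ∑_{t ∈ A} |a_t|` over the antichains `A`. -/
def IsStoppingTimeSpace (X : Type*) [NormedAddCommGroup X] [NormedSpace ℝ X] (ι : Fam →ₗ[ℝ] X) :
    Prop :=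
  CompleteSpace X ∧ DenseRange ι ∧ ∀ a, IsLUB (vals a) ‖ι a‖

/-- The closed unit ball of `X`, with the relative weak topology, has a countable `π`-base. -/
def HasCountablePiBase (X : Type*) [NormedAddCommGroup X] [NormedSpace ℝ X] : Prop :=
  ∃ U : ℕ → Set (WeakSpace ℝ X),
    (∀ n, IsOpen (U n) ∧
        (U n ∩ (toWeakSpace ℝ X) '' Metric.closedBall (0 : X) 1).Nonempty) ∧
    ∀ V : Set (WeakSpace ℝ X), IsOpen V →
      (V ∩ (toWeakSpace ℝ X) '' Metric.closedBall (0 : X) 1).Nonempty →
        ∃ n, U n ∩ (toWeakSpace ℝ X) '' Metric.closedBall (0 : X) 1 ⊆ V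

/-- The closed unit ball of the stopping time space has a countable `π`-base for the relative weak
topology. -/
theorem result :
    (∃ (X : Type) (_ : NormedAddCommGroup X) (_ : NormedSpace ℝ X) (ι : Fam →ₗ[ℝ] X),
      IsStoppingTimeSpace X ι) ∧
    ∀ (X : Type*) [NormedAddCommGroup X] [NormedSpace ℝ X] (ι : Fam →ₗ[ℝ] X),
      IsStoppingTimeSpace X ι → HasCountablePiBase X := by
  refine ⟨?_, ?_⟩
  · let j : S0 →L[ℝ] UniformSpace.Completion S0 := UniformSpace.Completion.toComplL
    let id0 : Fam →ₗ[ℝ] S0 := { toFun := fun x => x, map_add' := fun _ _ => rfl, map_smul' := fun _ _ => rfl }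
    refine ⟨UniformSpace.Completion S0, inferInstance, inferInstance, j.toLinearMap ∘ₗ id0,
      inferInstance, ?_, ?_⟩
    · exact UniformSpace.Completion.denseRange_coe (α := S0)
    · intro a
      have h : ‖(j.toLinearMap ∘ₗ id0) a‖ = snorm a :=
        (UniformSpace.Completion.norm_coe (E := S0) (a : S0)).trans (norm_S0 a)
      rw [h]
      exact isLUB_snorm a
  · intro X _ _ ι hι
    exact exists_pibase ι hι.2.1 hι.2.2

end Pool.Agent.Results.MP_66f42e_an.CountablePiBase
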